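import Mathlib
import Pool.Agent.Helper44.TOT.Defs

/-! TOT-T1: the smooth part (Rankin's trick). -/

set_option autoImplicit false

namespace Pool.Agent.Helper65.TOT

open Pool.Agent.Helper44.TOT ArithmeticFunction

noncomputable section

/-- `n ↦ n^δ` -/
def pw (δ : ℝ) : ArithmeticFunction ℝ := ⟨fun n => if n = 0 then 0 else (n : ℝ) ^ δ, by simp⟩

theorem pw_apply {δ : ℝ} {n : ℕ} (hn : n ≠ 0) : pw δ n = (n : ℝ) ^ δ := by
  change (if n = 0 then (0 : ℝ) else (n : ℝ) ^ δ) = _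
  rw [if_neg hn]

theorem pw_mult (δ : ℝ) : (pw δ).IsMultiplicative := by
  rw [IsMultiplicative.iff_ne_zero]
  refine ⟨by rw [pw_apply one_ne_zero]; simp, ?_⟩
  intro m n hm hn _
  rw [pw_apply (mul_ne_zero hm hn), pw_apply hm, pw_apply hn, Nat.cast_mul,
    Real.mul_rpow (Nat.cast_nonneg _) (Nat.cast_nonneg _)]

/-- the multiplicative function with `∑_{e ∣ m} ff e = m^δ` -/
def ff (δ : ℝ) : ArithmeticFunction ℝ :=
  ((ArithmeticFunction.moebius : ArithmeticFunction ℤ) : ArithmeticFunction ℝ) * pw δ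

theorem ff_mult (δ : ℝ) : (ff δ).IsMultiplicative :=
  (isMultiplicative_moebius.intCast).mul (pw_mult δ)

theorem sum_ff (δ : ℝ) {m : ℕ} (hm : m ≠ 0) : ∑ e ∈ m.divisors, ff δ e = (m : ℝ) ^ δ := by
  rw [← coe_zeta_mul_apply, ff, ← mul_assoc, coe_zeta_mul_coe_moebius, one_mul, pw_apply hm]

theorem ff_prime_pow (δ : ℝ) {p : ℕ} (hp : p.Prime) (j : ℕ) :
    ff δ (p ^ (j + 1)) = ((p : ℝ) ^ δ) ^ j * ((p : ℝ) ^ δ - 1) := by
  have h1 := sum_ff δ (pow_ne_zero (j + 1) hp.ne_zero)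
  have h2 := sum_ff δ (pow_ne_zero j hp.ne_zero)
  rw [Nat.sum_divisors_prime_pow hp] at h1 h2
  rw [Finset.sum_range_succ, h2] at h1
  have e : ∀ k : ℕ, (((p ^ k : ℕ) : ℝ)) ^ δ = ((p : ℝ) ^ δ) ^ k := fun k => by
    rw [Nat.cast_pow, ← Real.rpow_natCast, ← Real.rpow_mul (Nat.cast_nonneg _), mul_comm,
      Real.rpow_mul (Nat.cast_nonneg _), Real.rpow_natCast]
  rw [e, e] at h1
  have h3 : ff δ (p ^ (j + 1)) = ((p : ℝ) ^ δ) ^ (j + 1) - ((p : ℝ) ^ δ) ^ j := by linarith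
  rw [h3]
  ring

theorem one_le_rp {δ : ℝ} (hδ : 0 ≤ δ) {p : ℕ} (hp : p.Prime) : 1 ≤ (p : ℝ) ^ δ :=
  Real.one_le_rpow (by exact_mod_cast hp.one_lt.le) hδ

theorem ff_nonneg {δ : ℝ} (hδ : 0 ≤ δ) (n : ℕ) : 0 ≤ ff δ n := by
  rcases eq_or_ne n 0 with rfl | hn
  · simp
  · rw [(ff_mult δ).multiplicative_factorization _ hn]
    refine Finset.prod_nonneg fun p hp => ?_
    have hpp : p.Prime := Nat.prime_of_mem_primeFactors (Nat.support_factorization n ▸ hp)
    change 0 ≤ ff δ (p ^ (n.factorization p))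
    rcases Nat.eq_zero_or_pos (n.factorization p) with h0 | h0
    · rw [h0, pow_zero, (ff_mult δ).1]
      exact zero_le_one
    · obtain ⟨j, hj⟩ : ∃ j, n.factorization p = j + 1 := ⟨n.factorization p - 1, by omega⟩
      rw [hj, ff_prime_pow δ hpp]
      have := one_le_rp hδ hpp
      exact mul_nonneg (pow_nonneg (by linarith) _) (by linarith)

/-- `ff e / φ e` -/
def FF (δ : ℝ) (n : ℕ) : ℝ := ff δ n / n.totient

theorem FF_one (δ : ℝ) : FF δ 1 = 1 := by simp [FF, (ff_mult δ).1]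

theorem FF_mul (δ : ℝ) {m n : ℕ} (h : Nat.Coprime m n) : FF δ (m * n) = FF δ m * FF δ n := by
  unfold FF
  rw [(ff_mult δ).2 h, Nat.totient_mul h, Nat.cast_mul]
  exact mul_div_mul_comm _ _ _ _

theorem FF_nonneg {δ : ℝ} (hδ : 0 ≤ δ) (n : ℕ) : 0 ≤ FF δ n :=
  div_nonneg (ff_nonneg hδ n) (Nat.cast_nonneg _)

theorem FF_prime_pow (δ : ℝ) {p : ℕ} (hp : p.Prime) (j : ℕ) :
    FF δ (p ^ (j + 1)) = (((p : ℝ) ^ δ - 1) / (p - 1)) * ((p : ℝ) ^ δ / p) ^ j := by
  unfold FF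
  rw [ff_prime_pow δ hp, Nat.totient_prime_pow_succ hp]
  have h1 : ((p - 1 : ℕ) : ℝ) = (p : ℝ) - 1 := by
    rw [Nat.cast_sub hp.one_lt.le, Nat.cast_one]
  have h2 : (p : ℝ) ≠ 0 := by exact_mod_cast hp.ne_zero
  have h3 : (p : ℝ) - 1 ≠ 0 := by
    have : (1 : ℝ) < p := by exact_mod_cast hp.one_lt
    linarith
  rw [Nat.cast_mul, Nat.cast_pow, h1, div_pow]
  field_simp

/-- ratio of consecutive prime powers -/
theorem ratio_le {δ : ℝ} (_ : 0 ≤ δ) (hδ' : δ ≤ 1 / 50) {p : ℕ} (hp : p.Prime) :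
    (p : ℝ) ^ δ / p ≤ 51 / 100 := by
  have hp2 : (2 : ℝ) ≤ p := by exact_mod_cast hp.two_le
  have hp0 : (0 : ℝ) < p := by linarith
  have h1 : (p : ℝ) ^ δ / p = (p : ℝ) ^ (δ - 1) := by
    rw [Real.rpow_sub hp0, Real.rpow_one]
  rw [h1]
  have h2 : (p : ℝ) ^ (δ - 1) ≤ (2 : ℝ) ^ (δ - 1) :=
    Real.rpow_le_rpow_of_nonpos (by norm_num) hp2 (by linarith)
  refine h2.trans ?_
  rw [Real.rpow_sub (by norm_num), Real.rpow_one]
  have h3 : (2 : ℝ) ^ δ ≤ 102 / 100 := by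
    have h4 : (2 : ℝ) ^ δ ≤ (2 : ℝ) ^ ((1 : ℝ) / 50) :=
      Real.rpow_le_rpow_of_exponent_le (by norm_num) hδ'
    refine h4.trans ?_
    rw [← Real.log_le_log_iff (by positivity) (by norm_num), Real.log_rpow (by norm_num)]
    have h5 := Real.log_two_lt_d9
    have h6 : 1 - (102 / 100 : ℝ)⁻¹ ≤ Real.log (102 / 100) :=
      Real.one_sub_inv_le_log_of_pos (by norm_num)
    have h7 : (1 : ℝ) / 50 * Real.log 2 ≤ 1 / 50 * 0.6931471808 := by linarith
    norm_num at h6 h7 ⊢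
    linarith
  linarith

theorem summable_FF {δ : ℝ} (hδ : 0 ≤ δ) (hδ' : δ ≤ 1 / 50) {p : ℕ} (hp : p.Prime) :
    Summable (fun n : ℕ => ‖FF δ (p ^ n)‖) := by
  have h1 : ∀ n : ℕ, ‖FF δ (p ^ n)‖ = FF δ (p ^ n) := fun n => by
    rw [Real.norm_eq_abs, abs_of_nonneg (FF_nonneg hδ _)]
  simp only [h1]
  rw [← summable_nat_add_iff 1]
  simp only [FF_prime_pow δ hp]
  refine Summable.mul_left _ (summable_geometric_of_lt_one ?_ ?_)
  · positivity
  · exact (ratio_le hδ hδ' hp).trans_lt (by norm_num)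

theorem tsum_FF_le {δ w : ℝ} (hδ : 0 ≤ δ) (hδ' : δ ≤ 1 / 50) (hw : δ * Real.log w ≤ 1) {p : ℕ}
    (hp : p.Prime) (hpw : (p : ℝ) < w) :
    ∑' n : ℕ, FF δ (p ^ n) ≤ Real.exp (12 * δ * (Real.log p / p)) := by
  have hp2 : (2 : ℝ) ≤ p := by exact_mod_cast hp.two_le
  have hp0 : (0 : ℝ) < p := by linarith
  have hs : Summable (fun n : ℕ => FF δ (p ^ n)) := by
    have := summable_FF hδ hδ' hp
    exact this.of_norm
  have hr := ratio_le hδ hδ' hp
  have hr0 : 0 ≤ (p : ℝ) ^ δ / p := by positivity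
  rw [hs.tsum_eq_zero_add, pow_zero, FF_one]
  simp only [FF_prime_pow δ hp]
  rw [tsum_mul_left, tsum_geometric_of_lt_one hr0 (hr.trans_lt (by norm_num))]
  set t : ℝ := δ * Real.log p with ht
  have hlog : 0 ≤ Real.log p := Real.log_nonneg (by linarith)
  have ht0 : 0 ≤ t := mul_nonneg hδ hlog
  have ht1 : t ≤ 1 := by
    refine le_trans ?_ hw
    exact mul_le_mul_of_nonneg_left (Real.log_le_log hp0 hpw.le) hδ
  have he : (p : ℝ) ^ δ = Real.exp t := by
    rw [Real.rpow_def_of_pos hp0, mul_comm]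
  have h1 : (p : ℝ) ^ δ - 1 ≤ 2.7182818286 * t := by
    rw [he]
    have h2 : Real.exp t - 1 ≤ t * Real.exp t := by
      have := Real.add_one_le_exp (-t)
      have h3 : Real.exp (-t) * Real.exp t = 1 := by rw [← Real.exp_add]; simp
      have h4 := Real.exp_pos t
      nlinarith
    have h3 : Real.exp t ≤ 2.7182818286 :=
      (Real.exp_le_exp.2 ht1).trans Real.exp_one_lt_d9.le
    calc Real.exp t - 1 ≤ t * Real.exp t := h2
      _ ≤ t * 2.7182818286 := mul_le_mul_of_nonneg_left h3 ht0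
      _ = 2.7182818286 * t := by ring
  have h0 : 0 ≤ (p : ℝ) ^ δ - 1 := by
    have := one_le_rp hδ hp
    linarith
  have hp1 : (0 : ℝ) < p - 1 := by linarith
  have h2 : ((p : ℝ) ^ δ - 1) / (p - 1) ≤ 5.4365636572 * t / p := by
    rw [div_le_div_iff₀ hp1 hp0]
    calc ((p : ℝ) ^ δ - 1) * p ≤ (2.7182818286 * t) * p :=
          mul_le_mul_of_nonneg_right h1 hp0.le
      _ ≤ (2.7182818286 * t) * (2 * (p - 1)) := by
          refine mul_le_mul_of_nonneg_left (by linarith) (by positivity)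
      _ = 5.4365636572 * t * (p - 1) := by ring
  have h3 : (1 - (p : ℝ) ^ δ / p)⁻¹ ≤ 100 / 49 := by
    rw [inv_le_comm₀ (by linarith) (by norm_num)]
    norm_num
    linarith
  have h4 : ((p : ℝ) ^ δ - 1) / (p - 1) * (1 - (p : ℝ) ^ δ / p)⁻¹ ≤ 12 * δ * (Real.log p / p) := by
    calc ((p : ℝ) ^ δ - 1) / (p - 1) * (1 - (p : ℝ) ^ δ / p)⁻¹
        ≤ (5.4365636572 * t / p) * (100 / 49) := by
          refine mul_le_mul h2 h3 (inv_nonneg.2 (by linarith)) (by positivity)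
      _ ≤ 12 * (t / p) := by
          have : 0 ≤ t / p := by positivity
          calc (5.4365636572 * t / p) * (100 / 49) = (5.4365636572 * 100 / 49) * (t / p) := by ring
            _ ≤ 12 * (t / p) := mul_le_mul_of_nonneg_right (by norm_num) this
      _ = 12 * δ * (Real.log p / p) := by rw [ht]; ring
  calc 1 + ((p : ℝ) ^ δ - 1) / (p - 1) * (1 - (p : ℝ) ^ δ / p)⁻¹
      ≤ 12 * δ * (Real.log p / p) + 1 := by linarith
    _ ≤ Real.exp (12 * δ * (Real.log p / p)) := Real.add_one_le_exp _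

/-- the sum over smooth numbers -/
theorem sum_smooth_le {δ w C : ℝ} (hδ : 0 ≤ δ) (hδ' : δ ≤ 1 / 50) (hw2 : 2 ≤ w)
    (hw : δ * Real.log w ≤ 1)
    (hC : ∀ T : ℕ, 2 ≤ T →
      ∑ l ∈ (Finset.Icc 1 T).filter Nat.Prime, Real.log l / l ≤ C * Real.log T)
    (hC0 : 0 ≤ C) (Ee : Finset ℕ) (hE : ∀ e ∈ Ee, e ∈ Nat.smoothNumbers ⌈w⌉₊) :
    ∑ e ∈ Ee, FF δ e ≤ Real.exp (24 * C) := by
  classical
  set K := ⌈w⌉₊ with hK
  obtain ⟨h1, h2⟩ := EulerProduct.summable_and_hasSum_smoothNumbers_prod_primesBelow_tsum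
    (FF_one δ) (fun {m n} h => FF_mul δ h) (fun {p} hp => summable_FF hδ hδ' hp) K
  have h3 : ∑ e ∈ Ee, FF δ e =
      ∑ e ∈ Ee.subtype (fun e => e ∈ Nat.smoothNumbers K), FF δ (e : ℕ) :=
    (Finset.sum_subtype_of_mem (fun e => FF δ e) hE).symm
  rw [h3]
  have h4 : ∑ e ∈ Ee.subtype (fun e => e ∈ Nat.smoothNumbers K), FF δ (e : ℕ) ≤
      ∏ p ∈ K.primesBelow, ∑' n : ℕ, FF δ (p ^ n) :=
    sum_le_hasSum (f := fun m : Nat.smoothNumbers K => FF δ m)
      (Ee.subtype (fun e => e ∈ Nat.smoothNumbers K)) (fun e _ => FF_nonneg hδ e) h2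
  refine h4.trans ?_
  have hKw : w ≤ K := Nat.le_ceil w
  have hK2 : 2 ≤ K := by exact_mod_cast hw2.trans hKw
  have hlt : ∀ p ∈ K.primesBelow, (p : ℝ) < w := fun p hp => by
    have := (Nat.mem_primesBelow.1 hp).1
    rwa [hK, Nat.lt_ceil] at this
  calc ∏ p ∈ K.primesBelow, ∑' n : ℕ, FF δ (p ^ n)
      ≤ ∏ p ∈ K.primesBelow, Real.exp (12 * δ * (Real.log p / p)) := by
        refine Finset.prod_le_prod (fun p hp => tsum_nonneg fun n => FF_nonneg hδ _) fun p hp => ?_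
        exact tsum_FF_le hδ hδ' hw (Nat.mem_primesBelow.1 hp).2 (hlt p hp)
    _ = Real.exp (12 * δ * ∑ p ∈ K.primesBelow, Real.log p / p) := by
        rw [← Real.exp_sum, Finset.mul_sum]
    _ ≤ Real.exp (12 * δ * (C * Real.log K)) := by
        refine Real.exp_le_exp.2 (mul_le_mul_of_nonneg_left ?_ (by positivity))
        refine le_trans (Finset.sum_le_sum_of_subset_of_nonneg ?_ ?_) (hC K hK2)
        · intro p hp
          have := Nat.mem_primesBelow.1 hp
          exact Finset.mem_filter.2 ⟨Finset.mem_Icc.2 ⟨this.2.one_lt.le, this.1.le⟩, this.2⟩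
        · intro p hp _
          exact div_nonneg (Real.log_natCast_nonneg p) (Nat.cast_nonneg _)
    _ ≤ Real.exp (24 * C) := by
        refine Real.exp_le_exp.2 ?_
        have hKle : (K : ℝ) ≤ w ^ 2 := by
          have : (K : ℝ) < w + 1 := Nat.ceil_lt_add_one (by linarith)
          nlinarith
        have hlogK : Real.log K ≤ 2 * Real.log w := by
          have h5 : Real.log (w ^ 2) = 2 * Real.log w := by
            rw [Real.log_pow]; norm_num
          rw [← h5]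
          exact Real.log_le_log (by linarith) hKle
        calc 12 * δ * (C * Real.log K) ≤ 12 * δ * (C * (2 * Real.log w)) := by gcongr
          _ = 24 * C * (δ * Real.log w) := by ring
          _ ≤ 24 * C * 1 := mul_le_mul_of_nonneg_left hw (by positivity)
          _ = 24 * C := by ring

/-- the `w`-smooth part -/
theorem wlow_part (w : ℝ) (n : ℕ) (hn : 1 ≤ n) :
    ∃ m, m ∣ n ∧ m ∈ Nat.smoothNumbers ⌈w⌉₊ ∧ Real.log m = wlow w n := by
  classical
  set Q : Finset ℕ := n.primeFactors.filter (fun q : ℕ => (q : ℝ) < w) with hQ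
  have hQp : ∀ q ∈ Q, q.Prime := fun q hq =>
    Nat.prime_of_mem_primeFactors (Finset.mem_of_mem_filter q hq)
  refine ⟨∏ q ∈ Q, q ^ n.factorization q, ?_, ?_, ?_⟩
  · have h1 : ∏ q ∈ n.primeFactors, q ^ n.factorization q = n :=
      Nat.prod_factorization_pow_eq_self (by omega)
    conv_rhs => rw [← h1]
    exact Finset.prod_dvd_prod_of_subset _ _ _ (Finset.filter_subset _ _)
  · rw [Nat.mem_smoothNumbers']
    intro p hp hpd
    obtain ⟨q, hq, hpq⟩ := (hp.prime.dvd_finsetProd_iff _).1 hpd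
    have h2 : p ∣ q := hp.dvd_of_dvd_pow hpq
    have h3 : p = q := (Nat.prime_dvd_prime_iff_eq hp (hQp q hq)).1 h2
    rw [h3, Nat.lt_ceil]
    exact (Finset.mem_filter.1 hq).2
  · rw [Nat.cast_prod, Real.log_prod, wlow, hQ, Finset.sum_filter]
    · refine Finset.sum_congr rfl fun q _ => ?_
      split_ifs
      · rw [Nat.cast_pow, Real.log_pow]
      · rfl
    · intro q hq
      have : q ≠ 0 := (hQp q hq).ne_zero
      exact_mod_cast pow_ne_zero _ this

/-- a smooth divisor of controlled size -/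
theorem exists_part {w L u η : ℝ} {n : ℕ} (hn : 1 ≤ n) (hlw : Real.log w = u * L)
    (hL : 0 < L) (hη : 0 < η) (h : η * L < wlow w n) :
    ∃ m, m ∣ n ∧ m ∈ Nat.smoothNumbers ⌈w⌉₊ ∧ η * L ≤ Real.log m ∧ Real.log m ≤ (η + u) * L := by
  classical
  have hex : ∃ m, m ∣ n ∧ m ∈ Nat.smoothNumbers ⌈w⌉₊ ∧ η * L ≤ Real.log m := by
    obtain ⟨m, h1, h2, h3⟩ := wlow_part w n hn
    exact ⟨m, h1, h2, by rw [h3]; exact h.le⟩
  obtain ⟨h1, h2, h3⟩ := Nat.find_spec hex
  set m := Nat.find hex with hm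
  refine ⟨m, h1, h2, h3, ?_⟩
  have hm1 : m ≠ 1 := by
    intro h0
    rw [h0, Nat.cast_one, Real.log_one] at h3
    have := mul_pos hη hL
    linarith
  obtain ⟨q, hq, k, hk⟩ := Nat.exists_prime_and_dvd hm1
  have hm0 : m ≠ 0 := fun h0 => by
    rw [h0] at h1
    have := Nat.eq_zero_of_zero_dvd h1
    omega
  have hk0 : k ≠ 0 := fun h0 => by rw [h0, mul_zero] at hk; exact hm0 hk
  have hkm : k < m := by
    rw [hk]
    have := hq.one_lt
    have hkp : 0 < k := Nat.pos_of_ne_zero hk0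
    nlinarith
  have hqw : (q : ℝ) < w := by
    have := Nat.mem_smoothNumbers'.1 h2 q hq ⟨k, hk⟩
    rwa [Nat.lt_ceil] at this
  have hnot := Nat.find_min hex hkm
  have hkd : k ∣ m := ⟨q, by rw [hk, mul_comm]⟩
  have hlt : Real.log k < η * L := by
    by_contra hcon
    refine hnot ⟨hkd.trans h1, ?_, not_lt.1 hcon⟩
    rw [Nat.mem_smoothNumbers']
    intro p hp hpk
    exact Nat.mem_smoothNumbers'.1 h2 p hp (hpk.trans hkd)
  have hq0 : (0 : ℝ) < q := by exact_mod_cast hq.pos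
  have hk0' : (k : ℝ) ≠ 0 := by exact_mod_cast hk0
  have h5 : Real.log m = Real.log q + Real.log k := by
    rw [hk, Nat.cast_mul, Real.log_mul hq0.ne' hk0']
  have h6 : Real.log q ≤ u * L := by
    rw [← hlw]
    exact Real.log_le_log hq0 hqw.le
  rw [h5]
  linarith

/-- the asymptotic facts -/
theorem asym (A : ℕ) : ∃ X0 : ℕ, ∀ x : ℕ, X0 ≤ x →
    0 < Real.log x ∧ 0 < ll x ∧ 50 * (ll x) ^ A ≤ Real.log x := by
  have h1 : Filter.Tendsto (fun x : ℕ => Real.log (x : ℝ)) Filter.atTop Filter.atTop :=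
    Real.tendsto_log_atTop.comp tendsto_natCast_atTop_atTop
  have h2 : ∀ᶠ y : ℝ in Filter.atTop, 50 * (Real.log y) ^ A ≤ y := by
    have h3 := (Real.isLittleO_pow_log_id_atTop (n := A)).def (c := 1 / 50) (by norm_num)
    filter_upwards [h3, Filter.eventually_ge_atTop (1 : ℝ)] with y hy hy1
    rw [id, Real.norm_of_nonneg (pow_nonneg (Real.log_nonneg hy1) _),
      Real.norm_of_nonneg (by linarith)] at hy
    linarith
  have h4 := h1.eventually (h2.and (Filter.eventually_gt_atTop (1 : ℝ)))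
  obtain ⟨X0, hX⟩ := Filter.eventually_atTop.1 h4
  refine ⟨X0, fun x hx => ?_⟩
  obtain ⟨h5, h6⟩ := hX x hx
  exact ⟨by linarith, Real.log_pos h6, h5⟩

/-- TOT-T1 -/
theorem smooth (h1 : LogSum) : Smooth := by
  classical
  obtain ⟨C, hC1, hC⟩ := h1
  refine ⟨Real.exp (24 * C), Real.one_le_exp (by linarith), fun A => ?_⟩
  obtain ⟨X0, hX0⟩ := asym A
  refine ⟨X0, fun x N D u η S hx hD hN hdivs hu hu' huη hη hSN hS => ?_⟩
  obtain ⟨hL, hll, h50⟩ := hX0 x hx
  set L := Real.log x with hLdef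
  have hx0 : (0 : ℝ) < x := by
    rcases Nat.eq_zero_or_pos x with h0 | h0
    · rw [hLdef, h0] at hL
      simp at hL
    · exact_mod_cast h0
  have hpow : 0 < (ll x) ^ A := pow_pos hll _
  have hu0 : 0 < u := lt_of_lt_of_le (by positivity) hu
  have hη0 : 0 < η := lt_of_lt_of_le hu0 huη
  have huL : 50 ≤ u * L := by
    rw [div_le_iff₀ hpow] at hu
    calc (50 : ℝ) = 50 * 1 := by ring
      _ ≤ 50 * (u * (ll x) ^ A) := by linarith
      _ = u * (50 * (ll x) ^ A) := by ring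
      _ ≤ u * L := mul_le_mul_of_nonneg_left h50 hu0.le
  set w : ℝ := (x : ℝ) ^ u with hw
  have hw0 : 0 < w := Real.rpow_pos_of_pos hx0 _
  have hlw : Real.log w = u * L := by rw [hw, Real.log_rpow hx0]
  have hw2 : 2 ≤ w := by
    rw [← Real.log_le_log_iff (by norm_num) hw0, hlw]
    have := Real.log_two_lt_d9
    linarith
  have huL0 : 0 < u * L := by linarith
  set δ : ℝ := 1 / (u * L) with hδdef
  have hδ0 : 0 ≤ δ := by positivity
  have hδ1 : δ ≤ 1 / 50 := one_div_le_one_div_of_le (by norm_num) huL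
  have hδw : δ * Real.log w ≤ 1 := by
    rw [hlw, hδdef, one_div_mul_cancel huL0.ne']
  set Ee : Finset ℕ := (Finset.Icc 1 x).filter
    (fun e => e ∈ Nat.smoothNumbers ⌈w⌉₊ ∧ (e : ℝ) ≤ (x : ℝ) ^ ((1 : ℝ) / 5)) with hEe
  have hx1 : (1 : ℝ) ≤ x := by
    have h0 : 0 < x := by exact_mod_cast hx0
    exact_mod_cast h0
  have hsum := sum_smooth_le hδ0 hδ1 hw2 hδw hC (by linarith) Ee
    (fun e he => (Finset.mem_filter.1 he).2.1)
  have key : ∀ n ∈ S, Real.exp (η / u) ≤ ∑ e ∈ Ee.filter (fun e => e ∣ n), ff δ e := by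
    intro n hn
    have hn1 := hN n (hSN hn)
    obtain ⟨m, hmd, hms, hml, hmu⟩ := exists_part hn1 hlw hL hη0 (hS n hn)
    have hm0 : m ≠ 0 := fun h0 => by
      rw [h0] at hmd
      have := Nat.eq_zero_of_zero_dvd hmd
      omega
    have hm0' : (0 : ℝ) < m := by exact_mod_cast Nat.pos_of_ne_zero hm0
    have hm5 : (m : ℝ) ≤ (x : ℝ) ^ ((1 : ℝ) / 5) := by
      rw [← Real.log_le_log_iff hm0' (Real.rpow_pos_of_pos hx0 _), Real.log_rpow hx0]
      refine hmu.trans (mul_le_mul_of_nonneg_right (by linarith) hL.le)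
    have h5x : (x : ℝ) ^ ((1 : ℝ) / 5) ≤ x := by
      calc (x : ℝ) ^ ((1 : ℝ) / 5) ≤ (x : ℝ) ^ (1 : ℝ) :=
            Real.rpow_le_rpow_of_exponent_le hx1 (by norm_num)
        _ = x := Real.rpow_one _
    have hsub : m.divisors ⊆ Ee.filter (fun e => e ∣ n) := by
      intro e he
      have hed := Nat.dvd_of_mem_divisors he
      have he0 : 0 < e := Nat.pos_of_mem_divisors he
      have hem : (e : ℝ) ≤ m := by exact_mod_cast Nat.le_of_dvd (Nat.pos_of_ne_zero hm0) hed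
      refine Finset.mem_filter.2 ⟨Finset.mem_filter.2 ⟨Finset.mem_Icc.2 ⟨he0, ?_⟩, ?_, ?_⟩,
        hed.trans hmd⟩
      · exact_mod_cast hem.trans (hm5.trans h5x)
      · rw [Nat.mem_smoothNumbers'] at hms ⊢
        exact fun p hp hpe => hms p hp (hpe.trans hed)
      · exact hem.trans hm5
    calc Real.exp (η / u) ≤ (m : ℝ) ^ δ := by
          rw [Real.rpow_def_of_pos hm0']
          refine Real.exp_le_exp.2 ?_
          have h7 : η / u = (η * L) * δ := by
            rw [hδdef]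
            field_simp
          rw [h7]
          exact mul_le_mul_of_nonneg_right hml hδ0
      _ = ∑ e ∈ m.divisors, ff δ e := (sum_ff δ hm0).symm
      _ ≤ ∑ e ∈ Ee.filter (fun e => e ∣ n), ff δ e :=
          Finset.sum_le_sum_of_subset_of_nonneg hsub fun e _ _ => ff_nonneg hδ0 e
  have h9 : (S.card : ℝ) * Real.exp (η / u) ≤ D * Real.exp (24 * C) := by
    calc (S.card : ℝ) * Real.exp (η / u) = ∑ n ∈ S, Real.exp (η / u) := by
          rw [Finset.sum_const, nsmul_eq_mul]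
      _ ≤ ∑ n ∈ S, ∑ e ∈ Ee.filter (fun e => e ∣ n), ff δ e := Finset.sum_le_sum key
      _ = ∑ n ∈ S, ∑ e ∈ Ee, if e ∣ n then ff δ e else 0 :=
          Finset.sum_congr rfl fun n _ => Finset.sum_filter _ _
      _ = ∑ e ∈ Ee, ∑ n ∈ S, if e ∣ n then ff δ e else 0 := Finset.sum_comm
      _ = ∑ e ∈ Ee, ((S.filter (fun n => e ∣ n)).card : ℝ) * ff δ e := by
          refine Finset.sum_congr rfl fun e _ => ?_
          rw [← Finset.sum_filter, Finset.sum_const, nsmul_eq_mul]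
      _ ≤ ∑ e ∈ Ee, D * FF δ e := by
          refine Finset.sum_le_sum fun e he => ?_
          obtain ⟨he1, he2, he3⟩ := Finset.mem_filter.1 he
          have h10 : ((S.filter (fun n => e ∣ n)).card : ℝ) ≤ D / e.totient := by
            refine hdivs e _ (Finset.mem_Icc.1 he1).1 (he3.trans ?_)
              ((Finset.filter_subset _ _).trans hSN) fun n hn => (Finset.mem_filter.1 hn).2
            exact Real.rpow_le_rpow_of_exponent_le hx1 (by norm_num)
          calc ((S.filter (fun n => e ∣ n)).card : ℝ) * ff δ e ≤ (D / e.totient) * ff δ e :=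
                mul_le_mul_of_nonneg_right h10 (ff_nonneg hδ0 e)
            _ = D * FF δ e := by
                unfold FF
                ring
      _ = D * ∑ e ∈ Ee, FF δ e := by rw [Finset.mul_sum]
      _ ≤ D * Real.exp (24 * C) := mul_le_mul_of_nonneg_left hsum hD
  rw [Real.exp_neg]
  have h10 := Real.exp_pos (η / u)
  rw [← div_eq_mul_inv, le_div_iff₀ h10]
  linarith

end

end Pool.Agent.Helper65.TOT
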